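import Pool.Agent.Lib.MP_5e3ef6_lc.Loc

namespace Pool.Agent.Results.MP_5e3ef6_lc.Location

open Pool.Agent.Lib.MP_5e3ef6_lc

theorem result :
    (∀ k : ℕ∞, 2 ≤ k → (WRed DIAG (prod CN (DNC k)) ↔ k = 2) ∧ ¬ WRed DIAG (DNC k) ∧
      (WRed (DNC k) DIAG ↔ k = ⊤) ∧ (WRed (prod CN (DNC k)) DIAG ↔ k = ⊤)) ∧
    (∀ P, P = PA ∨ P = MLR ∨ (∃ ε < 1, P = WWKL ε) →
      ¬ WRed P DIAG ∧ ¬ WRed DIAG (prod CN P)) ∧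
    (∀ k : ℕ, (WRed (FC k) DIAG ↔ k ≤ 2) ∧ ¬ WRed DIAG (prod CN (FC k))) ∧
    ¬ WRed DIAG (prod CN IVT) ∧
    ∀ P, P = FC 2 ∨ P = IVT ∨ P = DIAG → ∀ Q, WRed (prod Q P) DIAG ↔ WRed Q CN :=
  location

end Pool.Agent.Results.MP_5e3ef6_lc.Location
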