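import Pool.Agent.Lib.MP_5e3ef6_lc.Ideal

namespace Pool.Agent.Results.MP_5e3ef6_lc.NonPA

open Pool.Agent.Lib.MP_5e3ef6_lc

theorem result : ∃ (d : ℕ → ℕ) (J : Set (ℕ → ℕ)), TIdeal J ∧ (∀ f ∈ J, TRed f d) ∧
    (∀ p ∈ J, p ∈ DIAG.dom → ∃ g ∈ J, g ∈ DIAG.sol p) ∧
    ∀ f h : ℕ → ℕ, TRed f d → Computable h → (∀ n, f n ≤ h n) → ¬ DNR f :=
  nonpa

end Pool.Agent.Results.MP_5e3ef6_lc.NonPA
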