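import Pool.Agent.Lib.MP_5e3ef6_lc.Quot2

namespace Pool.Agent.Results.MP_5e3ef6_lc.Quotient

open Pool.Agent.Lib.MP_5e3ef6_lc

theorem result (P : Problem) (hP : P = FC 2 ∨ P = IVT ∨ P = DIAG) (Q : Problem) :
    WRed (prod Q P) DIAG ↔ WRed Q CN :=
  quotients P hP Q

end Pool.Agent.Results.MP_5e3ef6_lc.Quotient
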