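import Pool.Agent.Lib.MP_5e3ef6_lc.T3.Fin
import Pool.Agent.Lib.MP_5e3ef6_lc.T3.Fc

namespace Pool.Agent.Results.MP_5e3ef6_lc.Sandwich

open Pool.Agent.Lib.MP_5e3ef6_lc

theorem result :
    (∀ k : ℕ∞, 2 ≤ k → (WRed DIAG (prod CN (prod IVT (DNC k))) ↔ k ≤ 3)) ∧
    ¬ WRed (prod CN (prod IVT (DNC 3))) DIAG ∧
    WRed (prod CN (prod IVT (DNC 3))) (prod CN (DNC 2)) ∧
    ¬ WRed (DNC 2) (prod CN (prod IVT (DNC 3))) ∧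
    ∀ j : ℕ, ¬ WRed DIAG (prod CN (prod (FC j) (DNC 3))) :=
  ⟨sandwich.1, sandwich.2.1, sandwich.2.2.1, sandwich.2.2.2,
    fun j => not_diag_cn_fc_dnc j le_rfl⟩

end Pool.Agent.Results.MP_5e3ef6_lc.Sandwich
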